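import Mathlib
import Pool.Agent.H818R3.TwoGap
import Pool.Agent.H562R2.DPerfect
import Pool.Agent.H818R3.DNoiseFinal

/-!
The pairwise semidefinite relaxation of `d`-to-1 Label Cover on graphs of bounded threshold rank,
with perfect and imperfect completeness, and instances that fool it.
-/

set_option autoImplicit false

namespace Pool.Agent.Results.MP_62e2f2_lc.PairwiseSdpLaw

open Finset Pool.Agent.H562R2

/-- At most `r` singular values of the normalised adjacency matrix of the bipartite multigraph with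
edges `(v e, w e)` exceed `1 - lam`, in variational form: there are `k ≤ r` functions on the right
side, orthonormal for the normalised edge count, such that
`2 ∑ p(w e) q(v e) ≤ (1 - lam) (∑ p(w e)^2 + ∑ q(v e)^2)` for all `p` orthogonal to them and all
`q`. -/
def FewLarge {V W E : Type} [Fintype E] (v : E → V) (w : E → W) (lam : ℝ) (r : ℕ) : Prop :=
  ∃ k : ℕ, k ≤ r ∧ ∃ f : Fin k → W → ℝ,
    (∀ i j, ∑ e, f i (w e) * f j (w e) = if i = j then (Fintype.card E : ℝ) else 0) ∧
    ∀ (p : W → ℝ) (q : V → ℝ), (∀ i, ∑ e, p (w e) * f i (w e) = 0) →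
      2 * ∑ e, p (w e) * q (v e) ≤ (1 - lam) * (∑ e, p (w e) ^ 2 + ∑ e, q (v e) ^ 2)

/-- The bipartite multigraph with edges `(v e, w e)` has normalised spectral gap at least `lam`: for
all `f` on the left side and `g` on the right side with mean zero over the edges,
`2 ∑ f(v e) g(w e) ≤ (1 - lam) (∑ f(v e)^2 + ∑ g(w e)^2)`, i.e. the second largest singular value of
the normalised adjacency matrix is at most `1 - lam`. -/
def Gap {V W E : Type} [Fintype E] (v : E → V) (w : E → W) (lam : ℝ) : Prop :=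
  ∀ (f : V → ℝ) (g : W → ℝ), ∑ e, f (v e) = 0 → ∑ e, g (w e) = 0 →
    2 * ∑ e, f (v e) * g (w e) ≤ (1 - lam) * (∑ e, f (v e) ^ 2 + ∑ e, g (w e) ^ 2)

/-- Solutions of value at least `1 - ε` of the pairwise semidefinite relaxation of the Label Cover
instance with edges `(v e, w e)` and projections `π e : A → B` from the labels of right vertices to
those of left vertices: vectors `y v b`, `x w a` (in a finite-dimensional space) which for each
vertex are pairwise orthogonal and sum to one common unit vector, with nonnegative inner products,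
and `∑_e ∑_a ⟨x (w e) a, y (v e) (π e a)⟩ ≥ (1 - ε) |E|`. -/
def SdpSolution {V W E A B D : Type} [Fintype E] [Fintype A] [Fintype B] [Fintype D] (v : E → V)
    (w : E → W) (π : E → A → B) (ε : ℝ) (y : V → B → D → ℝ) (x : W → A → D → ℝ) : Prop :=
  (∃ z : D → ℝ, z ⬝ᵥ z = 1 ∧ (∀ i, ∑ a, x i a = z) ∧ (∀ i, ∑ b, y i b = z)) ∧
  (∀ i a a', a ≠ a' → x i a ⬝ᵥ x i a' = 0) ∧
  (∀ i b b', b ≠ b' → y i b ⬝ᵥ y i b' = 0) ∧
  (∀ i a i' a', 0 ≤ x i a ⬝ᵥ x i' a') ∧
  (∀ i a i' b, 0 ≤ x i a ⬝ᵥ y i' b) ∧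
  (∀ i b i' b', 0 ≤ y i b ⬝ᵥ y i' b') ∧
  (1 - ε) * (Fintype.card E : ℝ) ≤ ∑ e, ∑ a, x (w e) a ⬝ᵥ y (v e) (π e a)

/-- For `d`-to-1 instances whose relaxation has value at least `1 - ε`:
(1) if at most `r` singular values exceed `1 - lam`, `r ≥ 1`, and
`Δ = (1 - ε) ^ 2 / √d - (1 - lam) > 0` then the value of the instance is at least
`Δ ^ 3 / (12 r)`, whatever the numbers of labels and vertices;
(2) if the spectral gap is at least `lam > 0`, `ε = 0` and `1 - lam ≤ 1 / √d` then it is at least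
`(1 - (1 - 1 / √d) / lam) ^ 2`.
(3) Conversely, for `d = 2 ^ j`, all `0 < ε < 1` and `δ > 0` there is a `d`-to-1 instance of
spectral gap at least `1 - √(2 + 1 / ε) (1 - ε) ^ 2 / √d` whose relaxation has value at least
`1 - ε` and whose value is at most `δ`. -/
theorem result :
    (∀ (d : ℕ) (_ : 1 ≤ d) (V W E A B D : Type) [Fintype V] [Fintype W] [Fintype E]
      [Nonempty E] [Fintype A] [Fintype B] [DecidableEq B] [Fintype D]
      (v : E → V) (w : E → W) (π : E → A → B) (y : V → B → D → ℝ) (x : W → A → D → ℝ)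
      (lam ε : ℝ), (∀ e b, (univ.filter fun a => π e a = b).card ≤ d) →
      lam ≤ 1 → 0 ≤ ε → ε ≤ 1 → SdpSolution v w π ε y x →
      (∀ (r : ℕ) (Δ : ℝ), 1 ≤ r → FewLarge v w lam r →
        Δ = (1 - ε) ^ 2 / Real.sqrt d - (1 - lam) → 0 < Δ →
        ∃ (L : V → B) (M : W → A), Δ ^ 3 / (12 * r) * (Fintype.card E : ℝ) ≤
          ((univ.filter fun e => π e (M (w e)) = L (v e)).card : ℝ)) ∧
      (0 < lam → Gap v w lam → ε = 0 → 1 - lam ≤ 1 / Real.sqrt d →
        ∃ (L : V → B) (M : W → A),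
          (1 - (1 - 1 / Real.sqrt d) / lam) ^ 2 * (Fintype.card E : ℝ) ≤
            ((univ.filter fun e => π e (M (w e)) = L (v e)).card : ℝ))) ∧
    (∀ (j : ℕ) (ε δ : ℝ), 0 < ε → ε < 1 → 0 < δ →
      ∃ (V W E A B D : Type) (_ : Fintype V) (_ : Fintype W) (_ : Fintype E) (_ : Nonempty E)
        (_ : Fintype A) (_ : Fintype B) (_ : DecidableEq B) (_ : Fintype D)
        (v : E → V) (w : E → W) (π : E → A → B) (y : V → B → D → ℝ) (x : W → A → D → ℝ),
        (∀ e b, (univ.filter fun a => π e a = b).card ≤ 2 ^ j) ∧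
        Gap v w (1 - Real.sqrt (2 + 1 / ε) * (1 - ε) ^ 2 / Real.sqrt (2 ^ j)) ∧
        SdpSolution v w π ε y x ∧
        ∀ (L : V → B) (M : W → A),
          ((univ.filter fun e => π e (M (w e)) = L (v e)).card : ℝ) ≤
            δ * (Fintype.card E : ℝ)) := by
  refine ⟨?_, ?_⟩
  · intro d hd V W E A B D _ _ _ _ _ _ _ _ v w π y x lam ε hfib hlam1 hε0 hε1 hsol
    classical
    obtain ⟨⟨z, hz, hzx, hzy⟩, h1, h2, h3, h4, h5, hval⟩ := hsol
    have hfeas : SdpFeasible x y := ⟨z, hz, hzx, hzy, h1, h2, h3, h4, h5⟩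
    have hd0 : (0 : ℝ) < Real.sqrt d := Real.sqrt_pos.mpr (by exact_mod_cast hd)
    refine ⟨?_, ?_⟩
    · intro r Δ _ hfew hΔdef hΔ
      have hth : Real.sqrt d * (1 - lam + Δ) ≤ (1 - ε) ^ 2 := by
        rw [hΔdef]
        apply le_of_eq
        field_simp
        ring
      obtain ⟨k, hkr, hk⟩ := hfew
      obtain ⟨M, L, hML⟩ := Pool.Agent.H818R3.Defl.value_few w v π d hd hfib lam ε Δ k r hkr hlam1
        hk hfeas hε0 hε1 hΔ hth hval
      exact ⟨L, M, hML⟩
    · intro hlam0 hgap hε hle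
      have hgap' : HasGap w v lam := by
        intro f g hf hg
        have h := hgap g f hg hf
        have e1 : ∑ e, f (w e) * g (v e) = ∑ e, g (v e) * f (w e) :=
          Finset.sum_congr rfl fun e _ => mul_comm _ _
        rw [e1, add_comm (∑ e, f (w e) ^ 2)]
        exact h
      by_contra hcon
      push Not at hcon
      rw [hε, sub_zero, one_mul] at hval
      have hneA : Nonempty (W → A) ∧ Nonempty (V → B) := by
        obtain ⟨e⟩ := ‹Nonempty E›
        have hx : ∀ u, Fam z (x u) := fun u => ⟨hz, hzx u, h1 u⟩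
        have hy : ∀ u, Fam z (y u) := fun u => ⟨hz, hzy u, h2 u⟩
        constructor
        · by_contra hne
          rw [not_nonempty_iff, isEmpty_pi] at hne
          obtain ⟨u, hu⟩ := hne
          have h6 := (hx u).sum_norm
          rw [Fintype.sum_empty] at h6
          exact zero_ne_one h6
        · by_contra hne
          rw [not_nonempty_iff, isEmpty_pi] at hne
          obtain ⟨u, hu⟩ := hne
          have h6 := (hy u).sum_norm
          rw [Fintype.sum_empty] at h6
          exact zero_ne_one h6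
      obtain ⟨⟨M0⟩, ⟨L0⟩⟩ := hneA
      obtain ⟨p, -, hp⟩ := Finset.exists_max_image (Finset.univ : Finset ((W → A) × (V → B)))
        (fun p => ((univ.filter fun e => π e (p.1 (w e)) = p.2 (v e)).card : ℝ))
        ⟨(M0, L0), Finset.mem_univ _⟩
      have h6 := pair_round_d w v π d hd hfib lam hlam0 hlam1 hgap' hle hfeas hval
        ((univ.filter fun e => π e (p.1 (w e)) = p.2 (v e)).card : ℝ)
        (fun M L => hp (M, L) (Finset.mem_univ _))
      have h7 := hcon p.2 p.1
      rw [mul_comm] at h6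
      linarith
  · intro j ε δ hε0 hε1 hδ
    obtain ⟨m, a, B, hB, hgap, hval, hsound⟩ := Pool.Agent.H818R3.Defl.d_sharp j ε δ hε0 hε1 hδ
    have hne : Nonempty (Pool.Agent.H818R3.Defl.NE j m B) :=
      ⟨((fun _ _ => false, fun _ => false), (fun _ => false, fun _ => ⟨0, hB⟩))⟩
    obtain ⟨z, hz, hzx, hzy, h1, h2, h3, h4, h5⟩ :=
      Pool.Agent.H818R3.Defl.nfeasible (j := j) (m := m)
    refine ⟨Mx j m × Fn (j + m), Fn (j + m), Pool.Agent.H818R3.Defl.NE j m B, Gam (j + m), Gam m,
      Gam (j + m) × Gam (j + m), inferInstance, inferInstance, inferInstance, hne, inferInstance,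
      inferInstance, inferInstance, inferInstance, Pool.Agent.H818R3.Defl.nt a,
      Pool.Agent.H818R3.Defl.ns, Pool.Agent.H818R3.Defl.np, Pool.Agent.H818R3.Defl.nyv,
      kvec (j + m), fun e b => (Pool.Agent.H818R3.Defl.np_card e b).le, ?_,
      ⟨⟨z, hz, hzx, hzy⟩, h1, h2, h3, h4, h5, hval⟩, fun L M => hsound M L⟩
    intro f g hf hg
    have h := hgap g f hg hf
    have e1 : ∀ (F : Pool.Agent.H818R3.Defl.NE j m B → ℝ) (H : Pool.Agent.H818R3.Defl.NE j m B → ℝ),
        ∑ e, F e * H e = ∑ e, H e * F e := fun F H =>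
      Finset.sum_congr rfl fun e _ => mul_comm _ _
    rw [e1 (fun e => f (Pool.Agent.H818R3.Defl.nt a e))]
    refine h.trans (le_of_eq ?_)
    congr 1
    exact add_comm _ _

end Pool.Agent.Results.MP_62e2f2_lc.PairwiseSdpLaw
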